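import Pool.Agent.T9h12.M5.H4.All
import Pool.Agent.T9h12.M5.Pair
import Pool.Agent.T9h12.C6.Trans

/-!
# Large complete pairs of sets

In Turán's `K_4^3`-free 3-graph there are disjoint sets `A` and `C` of `n/3` vertices each such that
all triples with one vertex in `A` and two vertices in `C` are edges. It is proved that two slightly
larger sets, of at least `0.341 n` vertices each, with this property cannot occur in a `K_4^3`-free
3-graph with at least as many edges: the density is then at most `0.55546 < 5/9` (for `n ≥ 50000`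
the number of edges is at most `(5/9) C(n,3)`).

Proof. At most `|A|²/2` edges have two vertices in `A` and one in `C`; they are removed. Flag algebra
method of order five for 3-graphs with a three-colouring of the vertices (`A`, `C` and the rest) such
that all triples of the first kind are edges and all triples of the second kind are not. The
positive semidefinite forms are those for all types on three coloured vertices and on one coloured
vertex; the sizes of the two sets are used as equations multiplied by arbitrary functions of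
four coloured vertices. The resulting inequality is checked by the kernel for all coloured 3-graphs
on five labelled vertices. Larger sets are reduced to sets with the exact relative sizes in a
blow-up; for this, the triples with a repeated vertex of `C` and a vertex of `A` are counted as
edges, which keeps the function free of `K_4^3`.
-/

set_option autoImplicit false
open Finset

namespace Pool.Agent.T9h12.Moved.CompletePairs

/-- The 3-graph `H` has no four vertices spanning all four triples. -/
def K43Free {n : ℕ} (H : Finset (Finset (Fin n))) : Prop :=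
  ∀ S : Finset (Fin n), S.card = 4 → ∃ e ⊆ S, e.card = 3 ∧ e ∉ H

/-- `(A, C)` is a complete pair: the two sets are disjoint, and all triples with one vertex in `A`
and two vertices in `C` are edges of `H`. -/
def CompletePair {n : ℕ} (H : Finset (Finset (Fin n))) (A C : Finset (Fin n)) : Prop :=
  Disjoint A C ∧ ∀ a ∈ A, ∀ u ∈ C, ∀ v ∈ C, u ≠ v → ({a, u, v} : Finset (Fin n)) ∈ H

open Pool.Agent.H449R2.Fl Pool.Agent.T9h12.M5 in
theorem main (n : ℕ) (H : Finset (Finset (Fin n))) (h3 : ∀ e ∈ H, e.card = 3) (hK : K43Free H)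
    (A C : Finset (Fin n)) (hp : CompletePair H A C) (hA : 341 * n ≤ 1000 * A.card)
    (hC : 341 * n ≤ 1000 * C.card) (hn : 0 < n) :
    600000 * H.card ≤ 55546 * n ^ 3 + 300000 * n ^ 2 := by
  have hf := ind_pat h3
  have hsg := K4free_sg h3 hK
  have hd := hp.1
  have hc : ∀ a ∈ A, ∀ u ∈ C, ∀ v ∈ C, u ≠ v → ind H a u v = 1 := by
    intro a ha u hu v hv huv
    unfold ind
    rw [if_pos (hp.2 a ha u hu v hv huv)]
  have hA' : 341 * Fintype.card (Fin n) ≤ 1000 * A.card := by rwa [Fintype.card_fin]
  have hC' : 341 * Fintype.card (Fin n) ≤ 1000 * C.card := by rwa [Fintype.card_fin]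
  have hA0 : 0 < A.card := by omega
  have hC0 : 0 < C.card := by omega
  set t := 1000 * A.card * C.card with ht
  have ht0 : 0 < t := by positivity
  set c := bc A C (341 * Fintype.card (Fin n) * C.card) (341 * Fintype.card (Fin n) * A.card) t
    with hcdef
  have hb := H4.bound (be_sy (md_sy hf A C) t) (c := c) (bc_le A C _ _ t)
    (md_bd hf hd (by decide +kernel) (by decide +kernel) _ _ t)
    (fun x y z w => md_k4 hf hd hsg hc x.1 y.1 z.1 w.1)
    (bal0 341 1000 hA') (bal2 hd 341 1000 hC')
  rw [be_sum, Fintype.card_prod, Fintype.card_fin, Fintype.card_fin] at hb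
  have h1 := sum_md hf hd hsg hc
  rw [sum_ind h3] at h1
  have hz : ((6 * H.card : ℕ) : ℤ) ≤ ∑ x, ∑ y, ∑ z, (md (ind H) A C x y z : ℤ) +
      3 * (A.card : ℤ) ^ 2 := by exact_mod_cast h1
  have hAn : (A.card : ℤ) ≤ n := by
    have := card_le_univ A
    rw [Fintype.card_fin] at this
    exact_mod_cast this
  have hAn2 : (A.card : ℤ) ^ 2 ≤ (n : ℤ) ^ 2 := by
    have h0 : (0 : ℤ) ≤ A.card := by positivity
    nlinarith
  set M : ℤ := ∑ x, ∑ y, ∑ z, (md (ind H) A C x y z : ℤ) with hM
  have ht3 : (0 : ℤ) < (t : ℤ) ^ 3 := by positivity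
  have hn3 : (0 : ℤ) ≤ (n : ℤ) ^ 3 := by positivity
  have h2 : 100000 * M ≤ 55546 * (n : ℤ) ^ 3 := by
    push_cast at hb
    rw [mul_pow] at hb
    have h4 : (t : ℤ) ^ 3 * (100000 * M) ≤ (t : ℤ) ^ 3 * (55546 * (n : ℤ) ^ 3) := by
      have h5 : (0 : ℤ) ≤ (n : ℤ) ^ 3 * (t : ℤ) ^ 3 := by positivity
      norm_num at hb
      nlinarith
    exact le_of_mul_le_mul_left h4 ht3
  have h6 : ((600000 * H.card : ℕ) : ℤ) ≤ ((55546 * n ^ 3 + 300000 * n ^ 2 : ℕ) : ℤ) := by
    push_cast at hz ⊢
    nlinarith
  exact_mod_cast h6

/-- **Large complete pairs.** Let `H` be a `K_4^3`-free 3-graph on `n` vertices, and let `A` and `C`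
be disjoint sets of at least `0.341 n` vertices each such that all triples with one vertex in `A` and
two vertices in `C` are edges of `H`. Then `H` has at most `(0.55546/6) n³ + n²/2` edges, and for
`n ≥ 50000` at most `(5/9) C(n,3)`. -/
theorem result (n : ℕ) (H : Finset (Finset (Fin n))) (h3 : ∀ e ∈ H, e.card = 3) (hK : K43Free H)
    (A C : Finset (Fin n)) (hp : CompletePair H A C) (hA : 341 * n ≤ 1000 * A.card)
    (hC : 341 * n ≤ 1000 * C.card) :
    (H.card : ℝ) ≤ 0.55546 / 6 * (n : ℝ) ^ 3 + (n : ℝ) ^ 2 / 2 ∧
      (50000 ≤ n → (H.card : ℝ) ≤ 5 / 9 * (n.choose 3 : ℝ)) := by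
  rcases Nat.eq_zero_or_pos n with h0 | h0
  · subst h0
    have hH : H = ∅ := by
      rw [eq_empty_iff_forall_notMem]
      intro s hs
      have h1 := h3 s hs
      have h2 := card_le_univ s
      rw [Fintype.card_fin] at h2
      omega
    refine ⟨by simp [hH], fun h => absurd h (by norm_num)⟩
  have h := main n H h3 hK A C hp hA hC h0
  have hr : (600000 : ℝ) * H.card ≤ 55546 * (n : ℝ) ^ 3 + 300000 * (n : ℝ) ^ 2 := by
    exact_mod_cast h
  refine ⟨by linarith, fun hn => ?_⟩
  have hn' : (50000 : ℝ) ≤ n := by exact_mod_cast hn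
  refine Pool.Agent.T9h12.C6.to_choose n 50000 H.card 0.55552 (by norm_num) hn (by norm_num)
    (by norm_num) ?_
  have h7 : (0 : ℝ) ≤ (n : ℝ) ^ 2 := by positivity
  nlinarith

end Pool.Agent.T9h12.Moved.CompletePairs
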